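import Pool.Agent.R98.AllUpper
import Pool.Agent.Results.MP_fdcff6_co.PrimeAsymptotic

/-!
# Packing the multiples, up to `n`, of all `d ≤ n`

The least packing length is asymptotic to `(4 / 3) n ^ (3 / 2) / ln n`.
-/

set_option autoImplicit false

open Finset Filter Topology

namespace Pool.Agent.Results.MP_f78dbe_co.Asymptotic

open Pool.Agent.R98 Pool.Agent.R98.Layer
open Pool.Agent.Results.MP_fdcff6_co.PrimeAsymptotic (tendsto_sqrt ratio_sq ratio_log ratio_pow)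

/-- `A_d = {d, 2d, ..., ⌊n / d⌋ d}`, the multiples of `d` in `{1, ..., n}` -/
def A (n d : ℕ) : Finset ℤ := (Icc 1 (n / d)).image (fun v : ℕ => (v : ℤ) * d)

/-- The sets `A_1, ..., A_k` pack into `{1, ..., m}`: there are integer translates `s_d + A_d`
inside `{1, ..., m}` which are pairwise disjoint. -/
def PacksInto (n k m : ℕ) : Prop :=
  ∃ s : ℕ → ℤ, (∀ d ∈ Icc 1 k, ∀ a ∈ A n d, 1 ≤ s d + a ∧ s d + a ≤ m) ∧
    ∀ d ∈ Icc 1 k, ∀ e ∈ Icc 1 k, d ≠ e → ∀ a ∈ A n d, ∀ b ∈ A n e, s d + a ≠ s e + b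

/-- `m(n)`: the least `m` such that the sets `A_1, ..., A_n` pack into `{1, ..., m}`. -/
noncomputable def m (n : ℕ) : ℕ := sInf {k : ℕ | PacksInto n n k}

lemma packsInto_iff (n k : ℕ) : PacksInto n n k ↔ Packs (Icc 1 n) (fun d => n / d) k := by
  unfold PacksInto Packs A
  simp only [Finset.mem_image, forall_exists_index, and_imp, forall_apply_eq_imp_iff₂]

lemma exists_packsInto (n : ℕ) : ∃ k, PacksInto n n k := by
  refine ⟨(Icc 1 n).card * n, (packsInto_iff _ _).2 (packs_trivial ?_ ?_)⟩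
  · intro d hd; exact (Finset.mem_Icc.1 hd).1
  · intro d _
    exact Nat.div_mul_le_self n d

lemma packsInto_m (n : ℕ) : PacksInto n n (m n) := Nat.sInf_mem (exists_packsInto n)

/-- comparison with the prime subfamily -/
lemma prime_le (n : ℕ) : MP_fdcff6_co.PrimeAsymptotic.m n (MP_fdcff6_co.PrimeAsymptotic.P n)
    ≤ m n := by
  apply Nat.sInf_le
  rw [Set.mem_ofPred_eq, MP_fdcff6_co.PrimeAsymptotic.packsInto_iff]
  refine ((packsInto_iff _ _).1 (packsInto_m n)).subset ?_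
  intro p hp
  exact (Finset.mem_filter.1 hp).1

lemma shf_le {A T m E n x b : ℕ} (hT : 1 ≤ T) (hxn : x ^ 2 ≤ n) (hxn2 : n ≤ x ^ 2 + 2 * x) :
    (shf A T m E n x b : ℝ) ≤ (if b < T then (n : ℝ) - ((b * x / T : ℕ) : ℝ) ^ 2 else 0)
      + (2 * x + 2 * A * (((b + 1) * x / T : ℕ) : ℝ)
      + (A * (4 * ((1 * x / E : ℕ) : ℝ) + 5)) * ((b * x / T : ℕ) : ℝ)
      + (n + 2 * A * (((b + 1) * x / T : ℕ) : ℝ)) / (m + 1) + 1) := by
  unfold shf Ls
  rw [one_mul]
  set X₀ := b * x / T with hX₀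
  set X₁ := (b + 1) * x / T with hX₁
  set Y := A * (4 * (x / E) + 5) with hY
  have h1 : n + 2 * A * X₁ - X₀ * (X₀ - Y) ≤ (n + 2 * A * X₁ - X₀ ^ 2) + Y * X₀ := by
    have h2 : X₀ ^ 2 ≤ X₀ * (X₀ - Y) + Y * X₀ := by
      rcases Nat.le_total Y X₀ with h3 | h3
      · obtain ⟨e, he⟩ := Nat.exists_eq_add_of_le h3
        rw [he, Nat.add_sub_cancel_left]
        exact le_of_eq (by ring)
      · rw [Nat.sub_eq_zero_of_le h3, mul_zero, zero_add, sq]
        exact Nat.mul_le_mul_right _ h3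
    omega
  have h3 : ((n + 2 * A * X₁ - X₀ ^ 2 : ℕ) : ℝ)
      ≤ (if b < T then (n : ℝ) - (X₀ : ℝ) ^ 2 else 0) + (2 * x + 2 * A * X₁) := by
    by_cases hbT : b < T
    · rw [if_pos hbT]
      have h4 : X₀ ≤ x := by
        calc X₀ ≤ T * x / T := Nat.div_le_div_right (Nat.mul_le_mul_right _ hbT.le)
          _ = x := Nat.mul_div_cancel_left _ hT
      have h5 : X₀ ^ 2 ≤ n := (Nat.pow_le_pow_left h4 2).trans hxn
      rw [Nat.cast_sub (by omega)]
      push_cast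
      have : (0 : ℝ) ≤ x := by positivity
      linarith
    · rw [if_neg hbT, zero_add]
      push Not at hbT
      have h4 : x ≤ X₀ := by
        rw [hX₀, Nat.le_div_iff_mul_le hT, mul_comm x T]
        exact Nat.mul_le_mul_right _ hbT
      have h5 : x ^ 2 ≤ X₀ ^ 2 := Nat.pow_le_pow_left h4 2
      have h6 : n + 2 * A * X₁ - X₀ ^ 2 ≤ 2 * x + 2 * A * X₁ := by omega
      exact_mod_cast h6
  have h4 : (((n + 2 * A * X₁) / (m + 1) : ℕ) : ℝ) ≤ (n + 2 * A * X₁) / (m + 1) := by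
    refine Nat.cast_div_le.trans (le_of_eq ?_)
    push_cast
    rfl
  have h5 : ((n + 2 * A * X₁ - X₀ * (X₀ - Y) : ℕ) : ℝ)
      ≤ ((n + 2 * A * X₁ - X₀ ^ 2 : ℕ) : ℝ) + (Y : ℝ) * X₀ := by exact_mod_cast h1
  have h6 : (Y : ℝ) = A * (4 * ((x / E : ℕ) : ℝ) + 5) := by
    rw [hY]
    push_cast
    ring
  rw [h6] at h5
  rw [Nat.cast_add, Nat.cast_add ((n + 2 * A * X₁) / (m + 1)) 1, Nat.cast_one]
  linarith

/-! ### the fourth iterated square root -/

/-- `n ^ (1 / 16)`, roughly -/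
def zz (n : ℕ) : ℕ := Nat.sqrt (Nat.sqrt (Nat.sqrt (Nat.sqrt n)))

lemma tendsto_zz : Tendsto zz atTop atTop :=
  tendsto_sqrt.comp (tendsto_sqrt.comp (tendsto_sqrt.comp tendsto_sqrt))

lemma log_le_zz (n : ℕ) (hn : 1 ≤ n) : Real.log n ≤ 16 * Real.log (zz n + 1) := by
  have h0 : ∀ k : ℕ, k + 1 ≤ (Nat.sqrt k + 1) ^ 2 := fun k => Nat.lt_succ_sqrt' k
  have h1 : n + 1 ≤ (zz n + 1) ^ 16 := by
    calc n + 1 ≤ (Nat.sqrt n + 1) ^ 2 := h0 n
      _ ≤ ((Nat.sqrt (Nat.sqrt n) + 1) ^ 2) ^ 2 := Nat.pow_le_pow_left (h0 _) 2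
      _ ≤ (((Nat.sqrt (Nat.sqrt (Nat.sqrt n)) + 1) ^ 2) ^ 2) ^ 2 :=
          Nat.pow_le_pow_left (Nat.pow_le_pow_left (h0 _) 2) 2
      _ ≤ ((((zz n + 1) ^ 2) ^ 2) ^ 2) ^ 2 :=
          Nat.pow_le_pow_left (Nat.pow_le_pow_left (Nat.pow_le_pow_left (h0 _) 2) 2) 2
      _ = (zz n + 1) ^ 16 := by ring
  have h2 : (n : ℝ) ≤ ((zz n : ℝ) + 1) ^ 16 := by
    have : n ≤ (zz n + 1) ^ 16 := by omega
    exact_mod_cast this
  have h3 : (0 : ℝ) < n := by exact_mod_cast hn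
  calc Real.log n ≤ Real.log (((zz n : ℝ) + 1) ^ 16) := Real.log_le_log h3 h2
    _ = 16 * Real.log (zz n + 1) := by rw [Real.log_pow]; norm_num

lemma log_sq_div : Tendsto (fun z : ℕ => Real.log ((z : ℝ) + 1) ^ 2 / (z : ℝ)) atTop (𝓝 0) := by
  have h1 : Tendsto (fun x : ℝ => Real.log x ^ 2 / x) atTop (𝓝 0) :=
    (Real.isLittleO_pow_log_id_atTop (n := 2)).tendsto_div_nhds_zero
  have h2 : Tendsto (fun z : ℕ => (z : ℝ) + 1) atTop atTop :=
    tendsto_atTop_add_const_right _ _ tendsto_natCast_atTop_atTop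
  have h3 := h1.comp h2
  have h4 : Tendsto (fun z : ℕ => 1 + 1 / (z : ℝ)) atTop (𝓝 (1 + 0)) :=
    tendsto_one_div_atTop_nhds_zero_nat.const_add 1
  have h5 := h3.mul h4
  rw [zero_mul] at h5
  refine h5.congr' ?_
  filter_upwards [eventually_ge_atTop 1] with z hz
  have hz0 : (0 : ℝ) < z := by exact_mod_cast hz
  simp only [Function.comp]
  field_simp

/-- `(1 + ln n) ln n / z → 0` -/
lemma log_zz : Tendsto (fun n : ℕ => (1 + Real.log n) * Real.log n / (zz n : ℝ)) atTop (𝓝 0) := by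
  have h1 := (log_sq_div.comp tendsto_zz).const_mul (17 * 16 : ℝ)
  rw [mul_zero] at h1
  refine tendsto_of_tendsto_of_tendsto_of_le_of_le' tendsto_const_nhds h1 ?_ ?_
  · filter_upwards with n
    have := Real.log_natCast_nonneg n
    positivity
  · filter_upwards [eventually_ge_atTop 1, tendsto_zz.eventually (eventually_ge_atTop 2)]
      with n hn hz
    have h2 := log_le_zz n hn
    have h3 := Real.log_natCast_nonneg n
    have hz2 : (2 : ℝ) ≤ zz n := by exact_mod_cast hz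
    have h4 : 1 ≤ Real.log ((zz n : ℝ) + 1) := by
      rw [Real.le_log_iff_exp_le (by linarith)]
      have := Real.exp_one_lt_d9
      linarith
    simp only [Function.comp]
    rw [mul_div_assoc']
    apply div_le_div_of_nonneg_right _ (by linarith)
    set l := Real.log ((zz n : ℝ) + 1)
    have h5 : (1 + Real.log n) ≤ 17 * l := by linarith
    calc (1 + Real.log n) * Real.log n ≤ (17 * l) * (16 * l) := by
          apply mul_le_mul h5 h2 h3 (by linarith)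
      _ = 17 * 16 * l ^ 2 := by ring

lemma z1_ratio {T : ℕ} (hT : 1 ≤ T) :
    Tendsto (fun x : ℕ => ((x : ℝ) / ((1 * x / T : ℕ) : ℝ)) *
      (Real.log x / Real.log ((1 * x / T : ℕ) : ℝ))) atTop (𝓝 T) := by
  have hT0 : (0 : ℝ) < T := by exact_mod_cast hT
  have h1 := tendsto_div_block T 1 hT
  have h1' : ((1 : ℕ) : ℝ) / T ≠ 0 := by positivity
  have h2 := h1.inv₀ h1'
  have h3 : Tendsto (fun x : ℕ => Real.log (((1 * x / T : ℕ) : ℝ) / x)) atTop
      (𝓝 (Real.log (((1 : ℕ) : ℝ) / T))) := (Real.continuousAt_log h1').tendsto.comp h1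
  have hlog : Tendsto (fun x : ℕ => Real.log x) atTop atTop :=
    Real.tendsto_log_atTop.comp tendsto_natCast_atTop_atTop
  have h4 := (h3.div_atTop hlog).const_add 1
  rw [add_zero] at h4
  have h5 := h4.inv₀ one_ne_zero
  have h6 := h2.mul h5
  have e : (((1 : ℕ) : ℝ) / T)⁻¹ * (1 : ℝ)⁻¹ = T := by
    push_cast
    field_simp
  rw [e] at h6
  refine h6.congr' ?_
  filter_upwards [eventually_ge_atTop (2 * T)] with x hx
  have hx0 : (0 : ℝ) < x := by
    have : 0 < x := by omega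
    exact_mod_cast this
  have hx1 : (1 : ℝ) < x := by
    have : 1 < x := by omega
    exact_mod_cast this
  have hz2 : 2 ≤ 1 * x / T := by
    rw [Nat.le_div_iff_mul_le (by omega)]
    omega
  have hz0 : (1 : ℝ) < ((1 * x / T : ℕ) : ℝ) := by exact_mod_cast hz2
  have hlx : 0 < Real.log x := Real.log_pos hx1
  have hlz : 0 < Real.log ((1 * x / T : ℕ) : ℝ) := Real.log_pos hz0
  rw [Real.log_div (by linarith) (by linarith)]
  have e2 : 1 + (Real.log ((1 * x / T : ℕ) : ℝ) - Real.log x) / Real.log x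
      = Real.log ((1 * x / T : ℕ) : ℝ) / Real.log x := by
    field_simp
    ring
  rw [e2, inv_div, inv_div]

/-- the limit of the upper bounds -/
lemma limit_le {T : ℕ} (hT : 2 ≤ T) (C : ℝ) :
    2 * (∑ b ∈ Ico 1 (T ^ 5), (1 / (T : ℝ)) *
      ((if b < T then (1 : ℝ) - ((b : ℝ) / T) ^ 2 else 0)
      + (2 * 0 + 2 * ((T ^ 5 : ℕ) : ℝ) * ((((b + 1 : ℕ) : ℝ) / T) * 0)
      + ((T ^ 5 : ℕ) : ℝ) * (4 * (((1 : ℕ) : ℝ) / ((8 * T ^ 14 : ℕ) : ℝ)) + 5 * 0) * ((b : ℝ) / T)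
      + (1 + 2 * ((T ^ 5 : ℕ) : ℝ) * ((((b + 1 : ℕ) : ℝ) / T) * 0)) / (((T ^ 5 : ℕ) : ℝ) + 1)
      + 0 ^ 2))
      + C * 1 * 0 + (2 * 1 * (((1 : ℕ) : ℝ) / T) + 8 * 1 * 0) + (1 * 0 + (80 * 1 ^ 2 / (T : ℝ) ^ 2 * T
      + 1 ^ 2 * 0 + 0 ^ 2 * 0))) ≤ 4 / 3 + 168 / T := by
  have hT0 : (0 : ℝ) < T := by exact_mod_cast (by omega : 0 < T)
  have hT1 : (1 : ℝ) ≤ T := by exact_mod_cast (by omega : 1 ≤ T)
  have h1 : ∑ b ∈ Ico 1 (T ^ 5), (1 / (T : ℝ)) * (if b < T then (1 : ℝ) - ((b : ℝ) / T) ^ 2 else 0)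
      ≤ 2 / 3 + 1 / (2 * T) := by
    calc ∑ b ∈ Ico 1 (T ^ 5), (1 / (T : ℝ)) * (if b < T then (1 : ℝ) - ((b : ℝ) / T) ^ 2 else 0)
        ≤ ∑ b ∈ range T, (1 / (T : ℝ)) * ((1 : ℝ) - ((b : ℝ) / T) ^ 2) := by
          have h2 : ∀ b ∈ Ico 1 (T ^ 5),
              (1 / (T : ℝ)) * (if b < T then (1 : ℝ) - ((b : ℝ) / T) ^ 2 else 0)
              = if b < T then (1 / (T : ℝ)) * ((1 : ℝ) - ((b : ℝ) / T) ^ 2) else 0 := by
            intro b _
            split_ifs <;> ring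
          rw [Finset.sum_congr rfl h2, ← Finset.sum_filter]
          apply Finset.sum_le_sum_of_subset_of_nonneg
          · intro b hb
            rw [Finset.mem_filter] at hb
            exact Finset.mem_range.2 hb.2
          · intro b hb _
            rw [Finset.mem_range] at hb
            have h3 : (b : ℝ) / T ≤ 1 := by
              rw [div_le_one hT0]
              exact_mod_cast hb.le
            have h4 : 0 ≤ (b : ℝ) / T := by positivity
            have h5 : ((b : ℝ) / T) ^ 2 ≤ 1 := pow_le_one₀ h4 h3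
            have h6 : (0 : ℝ) ≤ 1 - ((b : ℝ) / T) ^ 2 := by linarith
            positivity
      _ = 2 / 3 + 1 / (2 * T) - 1 / (6 * (T : ℝ) ^ 2) := by
          have e1 : ∀ b ∈ range T, (1 / (T : ℝ)) * ((1 : ℝ) - ((b : ℝ) / T) ^ 2)
              = 1 / (T : ℝ) + (-1 / (T : ℝ) ^ 3) * (b : ℝ) ^ 2 := by
            intro b _
            field_simp
            ring
          rw [Finset.sum_congr rfl e1, Finset.sum_add_distrib, ← Finset.mul_sum, sum_sq_range,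
            Finset.sum_const, Finset.card_range, nsmul_eq_mul]
          field_simp
          ring
      _ ≤ 2 / 3 + 1 / (2 * T) := by
          have : (0 : ℝ) ≤ 1 / (6 * (T : ℝ) ^ 2) := by positivity
          linarith
  have h2 : ∀ b ∈ Ico 1 (T ^ 5), (1 / (T : ℝ)) *
      ((if b < T then (1 : ℝ) - ((b : ℝ) / T) ^ 2 else 0)
      + (2 * 0 + 2 * ((T ^ 5 : ℕ) : ℝ) * ((((b + 1 : ℕ) : ℝ) / T) * 0)
      + ((T ^ 5 : ℕ) : ℝ) * (4 * (((1 : ℕ) : ℝ) / ((8 * T ^ 14 : ℕ) : ℝ)) + 5 * 0) * ((b : ℝ) / T)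
      + (1 + 2 * ((T ^ 5 : ℕ) : ℝ) * ((((b + 1 : ℕ) : ℝ) / T) * 0)) / (((T ^ 5 : ℕ) : ℝ) + 1)
      + 0 ^ 2))
      ≤ (1 / (T : ℝ)) * (if b < T then (1 : ℝ) - ((b : ℝ) / T) ^ 2 else 0)
        + (1 / (2 * (T : ℝ) ^ 6) + 1 / (T : ℝ) ^ 6) := by
    intro b hb
    rw [Finset.mem_Ico] at hb
    have h3 : (b : ℝ) ≤ (T : ℝ) ^ 5 := by exact_mod_cast hb.2.le
    rw [mul_add]
    apply add_le_add_right
    have h4 : (1 / (T : ℝ)) * (((T ^ 5 : ℕ) : ℝ) * (4 * (((1 : ℕ) : ℝ) / ((8 * T ^ 14 : ℕ) : ℝ)))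
        * ((b : ℝ) / T)) ≤ 1 / (2 * (T : ℝ) ^ 6) := by
      have e1 : (1 / (T : ℝ)) * (((T ^ 5 : ℕ) : ℝ) * (4 * (((1 : ℕ) : ℝ) / ((8 * T ^ 14 : ℕ) : ℝ)))
          * ((b : ℝ) / T)) = (b : ℝ) / (2 * (T : ℝ) ^ 11) := by
        push_cast
        field_simp
        ring
      rw [e1, div_le_div_iff₀ (by positivity) (by positivity)]
      calc (b : ℝ) * (2 * (T : ℝ) ^ 6) ≤ (T : ℝ) ^ 5 * (2 * (T : ℝ) ^ 6) := by gcongr
        _ = 1 * (2 * (T : ℝ) ^ 11) := by ring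
    have h5 : (1 / (T : ℝ)) * (1 / (((T ^ 5 : ℕ) : ℝ) + 1)) ≤ 1 / (T : ℝ) ^ 6 := by
      have e1 : 1 / (T : ℝ) ^ 6 = (1 / (T : ℝ)) * (1 / (T : ℝ) ^ 5) := by
        field_simp
      rw [e1]
      apply mul_le_mul_of_nonneg_left _ (by positivity)
      apply one_div_le_one_div_of_le (by positivity)
      push_cast
      linarith
    have e2 : (1 / (T : ℝ)) * (2 * 0 + 2 * ((T ^ 5 : ℕ) : ℝ) * ((((b + 1 : ℕ) : ℝ) / T) * 0)
      + ((T ^ 5 : ℕ) : ℝ) * (4 * (((1 : ℕ) : ℝ) / ((8 * T ^ 14 : ℕ) : ℝ)) + 5 * 0) * ((b : ℝ) / T)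
      + (1 + 2 * ((T ^ 5 : ℕ) : ℝ) * ((((b + 1 : ℕ) : ℝ) / T) * 0)) / (((T ^ 5 : ℕ) : ℝ) + 1)
      + 0 ^ 2)
      = (1 / (T : ℝ)) * (((T ^ 5 : ℕ) : ℝ) * (4 * (((1 : ℕ) : ℝ) / ((8 * T ^ 14 : ℕ) : ℝ)))
        * ((b : ℝ) / T)) + (1 / (T : ℝ)) * (1 / (((T ^ 5 : ℕ) : ℝ) + 1)) := by
      ring
    rw [e2]
    linarith
  have h3 := Finset.sum_le_sum h2
  rw [Finset.sum_add_distrib, Finset.sum_const, Nat.card_Ico, nsmul_eq_mul] at h3
  have h4 : ((T ^ 5 - 1 : ℕ) : ℝ) * (1 / (2 * (T : ℝ) ^ 6) + 1 / (T : ℝ) ^ 6)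
      ≤ 3 / (2 * (T : ℝ)) := by
    have h5 : ((T ^ 5 - 1 : ℕ) : ℝ) ≤ (T : ℝ) ^ 5 := by
      have : T ^ 5 - 1 ≤ T ^ 5 := Nat.sub_le _ _
      exact_mod_cast this
    calc ((T ^ 5 - 1 : ℕ) : ℝ) * (1 / (2 * (T : ℝ) ^ 6) + 1 / (T : ℝ) ^ 6)
        ≤ (T : ℝ) ^ 5 * (1 / (2 * (T : ℝ) ^ 6) + 1 / (T : ℝ) ^ 6) := by gcongr
      _ = 3 / (2 * (T : ℝ)) := by
          field_simp
          norm_num
  have e3 : (80 : ℝ) * 1 ^ 2 / (T : ℝ) ^ 2 * T = 80 / T := by
    field_simp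
  have e4 : (4 : ℝ) / 3 + 168 / T = 2 * ((2 / 3 + 1 / (2 * T)) + 3 / (2 * T) + 2 * (1 / T) + 80 / T) := by
    field_simp
    ring
  rw [e3, e4]
  push_cast at h3 h4 ⊢
  linarith

theorem result :
    (∀ n, IsLeast {k : ℕ | PacksInto n n k} (m n)) ∧
    Tendsto (fun n : ℕ => (m n : ℝ) * Real.log n / (n : ℝ) ^ (3 / 2 : ℝ)) atTop (𝓝 (4 / 3)) := by
  refine ⟨fun n => ⟨packsInto_m n, fun k hk => Nat.sInf_le hk⟩, ?_⟩
  apply tendsto_of_eventually
  · -- upper bound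
    have hlog0 : Tendsto (fun n : ℕ => Real.log n / (n : ℝ)) atTop (𝓝 0) := by
      have h := Real.isLittleO_log_id_atTop.tendsto_div_nhds_zero.comp
        (tendsto_natCast_atTop_atTop (R := ℝ))
      exact h
    have hlogx : Tendsto (fun n : ℕ => Real.log (Nat.sqrt n) / (Nat.sqrt n : ℝ)) atTop (𝓝 0) :=
      hlog0.comp tendsto_sqrt
    have hx1 : Tendsto (fun n : ℕ => 1 / (Nat.sqrt n : ℝ)) atTop (𝓝 0) :=
      tendsto_one_div_atTop_nhds_zero_nat.comp tendsto_sqrt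
    have hpre := ratio_pow.mul ratio_log
    rw [one_mul] at hpre
    have hlx_le : ∀ n : ℕ, 4 ≤ n → Real.log (Nat.sqrt n) ≤ Real.log n ∧ 0 ≤ Real.log (Nat.sqrt n) := by
      intro n hn
      have h4 : 2 ≤ Nat.sqrt n := by rw [Nat.le_sqrt']; omega
      have h5 : (0 : ℝ) < Nat.sqrt n := by
        have : 0 < Nat.sqrt n := by omega
        exact_mod_cast this
      refine ⟨Real.log_le_log h5 (by exact_mod_cast Nat.sqrt_le_self n), Real.log_natCast_nonneg _⟩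
    have hzz1 : Tendsto (fun n : ℕ => Real.log (Nat.sqrt n) / (zz n : ℝ)) atTop (𝓝 0) := by
      refine tendsto_of_tendsto_of_tendsto_of_le_of_le' tendsto_const_nhds log_zz ?_ ?_
      · filter_upwards with n
        have := Real.log_natCast_nonneg (Nat.sqrt n)
        positivity
      · filter_upwards [eventually_ge_atTop 4] with n hn
        have h1 := hlx_le n hn
        have h2 := Real.log_natCast_nonneg n
        apply div_le_div_of_nonneg_right _ (by positivity)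
        nlinarith
    have hzz2 : Tendsto (fun n : ℕ => (1 + Real.log n) * Real.log (Nat.sqrt n) / (zz n : ℝ)) atTop
        (𝓝 0) := by
      refine tendsto_of_tendsto_of_tendsto_of_le_of_le' tendsto_const_nhds log_zz ?_ ?_
      · filter_upwards with n
        have := Real.log_natCast_nonneg (Nat.sqrt n)
        have := Real.log_natCast_nonneg n
        positivity
      · filter_upwards [eventually_ge_atTop 4] with n hn
        have h1 := hlx_le n hn
        have h2 := Real.log_natCast_nonneg n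
        apply div_le_div_of_nonneg_right _ (by positivity)
        apply mul_le_mul_of_nonneg_left h1.1 (by linarith)
    have key : ∀ T : ℕ, ∃ C : ℕ, 2 ≤ T → ∀ᶠ n : ℕ in atTop, (m n : ℝ) ≤
        ((∑ b ∈ Ico 1 (T ^ 5), (blk T b (Nat.sqrt n)).card *
        shf (T ^ 5) T (T ^ 5) (8 * T ^ 14) n (Nat.sqrt n) b : ℕ) : ℝ) + C * n
        + (2 * n * Nat.primeCounting (1 * Nat.sqrt n / T) + 8 * n * Nat.sqrt n / (zz n))
        + (n + (80 * (n : ℝ) ^ 2 / (T ^ 2 * (((1 * Nat.sqrt n / T : ℕ) : ℝ)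
          * Real.log ((1 * Nat.sqrt n / T : ℕ) : ℝ)))
        + (n : ℝ) ^ 2 * (1 + Real.log n) / ((Nat.sqrt n : ℝ) * (zz n : ℝ)) + 1)) := by
      intro T
      by_cases hT : 2 ≤ T
      · obtain ⟨C, n₀, h⟩ := upper_all hT
        refine ⟨C, fun _ => eventually_atTop.2 ⟨n₀, fun n hn => ?_⟩⟩
        obtain ⟨M, hM1, hM2⟩ := h n hn
        refine le_trans ?_ hM2
        have : m n ≤ M := Nat.sInf_le ((packsInto_iff _ _).2 hM1)
        exact_mod_cast this
      · exact ⟨0, fun h => absurd h hT⟩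
    choose C hC using key
    intro ε hε
    obtain ⟨T, hT2, hTε⟩ : ∃ T : ℕ, 2 ≤ T ∧ 168 / (T : ℝ) < ε / 2 := by
      obtain ⟨T, hT⟩ := exists_nat_gt (168 / (ε / 2))
      have hT0 : (0 : ℝ) < T := lt_trans (by positivity) hT
      refine ⟨T + 2, by omega, ?_⟩
      rw [div_lt_iff₀ (by positivity)]
      rw [div_lt_iff₀ (by positivity)] at hT
      push_cast
      nlinarith
    have hT1 : 1 ≤ T := by omega
    have hTr : (0 : ℝ) < T := by exact_mod_cast (by omega : 0 < T)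
    have hE1 : 1 ≤ 8 * T ^ 14 := Nat.mul_pos (by norm_num) (by positivity)
    -- the upper bounds converge
    have hlim : Tendsto (fun n : ℕ => ((Nat.sqrt n : ℝ) ^ 3 / (n : ℝ) ^ (3 / 2 : ℝ) *
        (Real.log n / Real.log (Nat.sqrt n))) *
        (∑ b ∈ Ico 1 (T ^ 5), (((blk T b (Nat.sqrt n)).card : ℝ) * Real.log (Nat.sqrt n)
          / (Nat.sqrt n)) *
        ((if b < T then (n : ℝ) / (Nat.sqrt n : ℝ) ^ 2
            - (((b * Nat.sqrt n / T : ℕ) : ℝ) / (Nat.sqrt n)) ^ 2 else 0)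
        + (2 * (1 / (Nat.sqrt n : ℝ))
        + 2 * ((T ^ 5 : ℕ) : ℝ) * (((((b + 1) * Nat.sqrt n / T : ℕ) : ℝ) / (Nat.sqrt n))
            * (1 / (Nat.sqrt n : ℝ)))
        + ((T ^ 5 : ℕ) : ℝ) * (4 * (((1 * Nat.sqrt n / (8 * T ^ 14) : ℕ) : ℝ) / (Nat.sqrt n))
            + 5 * (1 / (Nat.sqrt n : ℝ))) * (((b * Nat.sqrt n / T : ℕ) : ℝ) / (Nat.sqrt n))
        + ((n : ℝ) / (Nat.sqrt n : ℝ) ^ 2
            + 2 * ((T ^ 5 : ℕ) : ℝ) * (((((b + 1) * Nat.sqrt n / T : ℕ) : ℝ) / (Nat.sqrt n))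
            * (1 / (Nat.sqrt n : ℝ)))) / (((T ^ 5 : ℕ) : ℝ) + 1)
        + (1 / (Nat.sqrt n : ℝ)) ^ 2))
        + C T * ((n : ℝ) / (Nat.sqrt n : ℝ) ^ 2) * (Real.log (Nat.sqrt n) / (Nat.sqrt n))
        + (2 * ((n : ℝ) / (Nat.sqrt n : ℝ) ^ 2) *
            ((Nat.primeCounting (1 * Nat.sqrt n / T) : ℝ) * Real.log (Nat.sqrt n) / (Nat.sqrt n))
          + 8 * ((n : ℝ) / (Nat.sqrt n : ℝ) ^ 2) * (Real.log (Nat.sqrt n) / (zz n : ℝ)))
        + (((n : ℝ) / (Nat.sqrt n : ℝ) ^ 2) * (Real.log (Nat.sqrt n) / (Nat.sqrt n))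
          + (80 * ((n : ℝ) / (Nat.sqrt n : ℝ) ^ 2) ^ 2 / (T : ℝ) ^ 2 *
            ((((Nat.sqrt n : ℕ) : ℝ) / ((1 * Nat.sqrt n / T : ℕ) : ℝ)) *
            (Real.log (Nat.sqrt n) / Real.log ((1 * Nat.sqrt n / T : ℕ) : ℝ)))
          + ((n : ℝ) / (Nat.sqrt n : ℝ) ^ 2) ^ 2 *
            ((1 + Real.log n) * Real.log (Nat.sqrt n) / (zz n : ℝ))
          + (1 / (Nat.sqrt n : ℝ)) ^ 2 * (Real.log (Nat.sqrt n) / (Nat.sqrt n)))))) atTop
        (𝓝 (2 * (∑ b ∈ Ico 1 (T ^ 5), (1 / (T : ℝ)) *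
      ((if b < T then (1 : ℝ) - ((b : ℝ) / T) ^ 2 else 0)
      + (2 * 0 + 2 * ((T ^ 5 : ℕ) : ℝ) * ((((b + 1 : ℕ) : ℝ) / T) * 0)
      + ((T ^ 5 : ℕ) : ℝ) * (4 * (((1 : ℕ) : ℝ) / ((8 * T ^ 14 : ℕ) : ℝ)) + 5 * 0) * ((b : ℝ) / T)
      + (1 + 2 * ((T ^ 5 : ℕ) : ℝ) * ((((b + 1 : ℕ) : ℝ) / T) * 0)) / (((T ^ 5 : ℕ) : ℝ) + 1)
      + 0 ^ 2))
      + C T * 1 * 0 + (2 * 1 * (((1 : ℕ) : ℝ) / T) + 8 * 1 * 0) + (1 * 0
      + (80 * 1 ^ 2 / (T : ℝ) ^ 2 * T + 1 ^ 2 * 0 + 0 ^ 2 * 0))))) := by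
      have hblkx : ∀ b : ℕ, Tendsto (fun n : ℕ => ((b * Nat.sqrt n / T : ℕ) : ℝ) / (Nat.sqrt n))
          atTop (𝓝 ((b : ℝ) / T)) := fun b => (tendsto_div_block T b hT1).comp tendsto_sqrt
      apply hpre.mul
      apply Tendsto.add
      · apply Tendsto.add
        · apply Tendsto.add
          · apply tendsto_finsetSum
            intro b _
            apply ((tendsto_blk T b hT1).comp tendsto_sqrt).mul
            apply Tendsto.add
            · by_cases hb : b < T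
              · simp only [hb, if_true]
                exact ratio_sq.sub ((hblkx b).pow 2)
              · simp only [hb, if_false]
                exact tendsto_const_nhds
            · apply Tendsto.add
              · apply Tendsto.add
                · apply Tendsto.add
                  · apply Tendsto.add
                    · exact hx1.const_mul 2
                    · exact ((hblkx (b + 1)).mul hx1).const_mul _
                  · apply Tendsto.mul _ (hblkx b)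
                    apply Tendsto.const_mul
                    exact (((tendsto_div_block (8 * T ^ 14) 1 hE1).comp tendsto_sqrt).const_mul
                      4).add (hx1.const_mul 5)
                · apply Tendsto.div_const
                  exact ratio_sq.add (((hblkx (b + 1)).mul hx1).const_mul _)
              · exact hx1.pow 2
          · exact (ratio_sq.const_mul _).mul hlogx
        · apply Tendsto.add
          · exact (ratio_sq.const_mul 2).mul ((tendsto_pi_block T 1 hT1).comp tendsto_sqrt)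
          · exact (ratio_sq.const_mul 8).mul hzz1
      · apply Tendsto.add
        · exact ratio_sq.mul hlogx
        · apply Tendsto.add
          · apply Tendsto.add
            · apply Tendsto.mul
              · apply Tendsto.div_const
                exact (ratio_sq.pow 2).const_mul 80
              · exact (z1_ratio hT1).comp tendsto_sqrt
            · exact (ratio_sq.pow 2).mul hzz2
          · exact (hx1.pow 2).mul hlogx
    have hlt := hlim.eventually_lt_const (lt_of_le_of_lt (limit_le hT2 (C T))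
      (show (4 : ℝ) / 3 + 168 / T < 4 / 3 + ε by linarith))
    filter_upwards [hlt, hC T hT2, eventually_ge_atTop ((2 * T) ^ 2 + 4),
      tendsto_zz.eventually (eventually_ge_atTop 1)] with n hn1 hn2 hn3 hn4
    refine le_trans ?_ hn1.le
    have hn0 : (0 : ℝ) < n := by exact_mod_cast (by omega : 0 < n)
    have hlog : 0 ≤ Real.log n := Real.log_natCast_nonneg n
    have h4 : 2 * T ≤ Nat.sqrt n := by rw [Nat.le_sqrt']; omega
    have h4' : 2 ≤ Nat.sqrt n := by omega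
    have h5 : (1 : ℝ) < Nat.sqrt n := by exact_mod_cast h4'
    have h6 : 0 < Real.log (Nat.sqrt n) := Real.log_pos h5
    have h7 : (0 : ℝ) < (n : ℝ) ^ (3 / 2 : ℝ) := by positivity
    have h8 : (0 : ℝ) < Nat.sqrt n := by linarith
    have hz2 : 2 ≤ 1 * Nat.sqrt n / T := by
      rw [Nat.le_div_iff_mul_le (by omega)]
      omega
    have hz0 : (1 : ℝ) < ((1 * Nat.sqrt n / T : ℕ) : ℝ) := by exact_mod_cast hz2
    have hz1 : (0 : ℝ) < ((1 * Nat.sqrt n / T : ℕ) : ℝ) := by linarith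
    have hlz : 0 < Real.log ((1 * Nat.sqrt n / T : ℕ) : ℝ) := Real.log_pos hz0
    have hzz0 : (0 : ℝ) < zz n := by exact_mod_cast hn4
    have hsum : ((∑ b ∈ Ico 1 (T ^ 5), (blk T b (Nat.sqrt n)).card *
        shf (T ^ 5) T (T ^ 5) (8 * T ^ 14) n (Nat.sqrt n) b : ℕ) : ℝ)
        ≤ ∑ b ∈ Ico 1 (T ^ 5), ((blk T b (Nat.sqrt n)).card : ℝ) *
        ((if b < T then (n : ℝ) - ((b * Nat.sqrt n / T : ℕ) : ℝ) ^ 2 else 0)
      + (2 * (Nat.sqrt n : ℝ) + 2 * ((T ^ 5 : ℕ) : ℝ) * (((b + 1) * Nat.sqrt n / T : ℕ) : ℝ)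
      + (((T ^ 5 : ℕ) : ℝ) * (4 * ((1 * Nat.sqrt n / (8 * T ^ 14) : ℕ) : ℝ) + 5))
        * ((b * Nat.sqrt n / T : ℕ) : ℝ)
      + (n + 2 * ((T ^ 5 : ℕ) : ℝ) * (((b + 1) * Nat.sqrt n / T : ℕ) : ℝ)) / (((T ^ 5 : ℕ) : ℝ) + 1)
      + 1)) := by
      rw [Nat.cast_sum]
      apply Finset.sum_le_sum
      intro b _
      rw [Nat.cast_mul]
      apply mul_le_mul_of_nonneg_left _ (by positivity)
      apply shf_le hT1 (Nat.sqrt_le' n)
      have h9 := Nat.lt_succ_sqrt' n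
      have h10 : (Nat.sqrt n).succ ^ 2 = (Nat.sqrt n) ^ 2 + 2 * Nat.sqrt n + 1 := by
        rw [Nat.succ_eq_add_one]; ring
      omega
    have htot := hn2.trans (add_le_add_left (add_le_add_left (add_le_add_left hsum _) _) _)
    have htot2 : (m n : ℝ) * Real.log n / (n : ℝ) ^ (3 / 2 : ℝ) ≤ _ * Real.log n
        / (n : ℝ) ^ (3 / 2 : ℝ) :=
      div_le_div_of_nonneg_right (mul_le_mul_of_nonneg_right htot hlog) h7.le
    refine htot2.trans (le_of_eq ?_)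
    have e1 : ∀ U V : ℝ, U = (Nat.sqrt n : ℝ) ^ 3 / Real.log (Nat.sqrt n) * V →
        U * Real.log n / (n : ℝ) ^ (3 / 2 : ℝ) = ((Nat.sqrt n : ℝ) ^ 3 / (n : ℝ) ^ (3 / 2 : ℝ) *
        (Real.log n / Real.log (Nat.sqrt n))) * V := by
      intro U V h
      rw [h]
      field_simp
    apply e1
    have e5 : ∀ K a b c d : ℝ, K * (a + b + c + d) = K * a + K * b + K * c + K * d := by
      intros; ring
    rw [e5]
    congr 1
    · congr 1
      · congr 1
        · rw [Finset.mul_sum]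
          apply Finset.sum_congr rfl
          intro b _
          by_cases hb : b < T
          · simp only [hb, if_true]
            field_simp
          · simp only [hb, if_false]
            field_simp
            ring
        · field_simp
      · field_simp
    · field_simp
  · -- lower bound
    intro ε hε
    have h1 := MP_fdcff6_co.PrimeAsymptotic.result.2.eventually_const_lt
      (show (4 : ℝ) / 3 - ε < 4 / 3 by linarith)
    filter_upwards [h1] with n hn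
    refine hn.le.trans ?_
    have h2 : ((MP_fdcff6_co.PrimeAsymptotic.m n (MP_fdcff6_co.PrimeAsymptotic.P n) : ℕ) : ℝ)
        ≤ m n := by exact_mod_cast prime_le n
    have h3 := Real.log_natCast_nonneg n
    gcongr

end Pool.Agent.Results.MP_f78dbe_co.Asymptotic
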